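import Pool.Agent.W353.NF.EC

/-!
# Near-relations between number fields and the edge of the L-series of an elliptic curve

`K` is a number field, `E` an elliptic curve over `K`.  The meromorphic continuation of the `L`-series
`L(E/F, s)` of `E` over the number fields `F ⊇ K` is not known.  The theorem compares all these
`L`-series at the points `3/2 + iτ` of the line `Re s = 3/2` bounding the half-plane of absolute
convergence.  A linear relation between the numbers of embeddings `F → K̄` fixed by `σ ∈ Gal(K̄/K)` gives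
a relation between the `L`-series (Artin); here it is enough that the relation holds approximately, in
the mean over `Gal(K̄/K)`.  In particular the orders of `L(E/F, s)` and `L(E/K, s)` at `3/2 + iτ`,
`τ ≠ 0`, are equal if the Galois group of the closure of `F/K` contains few derangements, for example
if it is the full symmetric group on at least three letters.
-/

set_option autoImplicit false

namespace Pool.Agent.Results.MP_0d9be2_nt.DerangementBound

open NumberField IsDedekindDomain Filter Topology

section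
variable {F : Type} [Field F] [NumberField F]

/-- `V v` is, for every finite place `v`, an integral model of `E` with discriminant minimal at
`v`. -/
def MinimalModels (E : WeierstrassCurve F)
    (V : HeightOneSpectrum (𝓞 F) → WeierstrassCurve (𝓞 F)) : Prop :=
  ∀ v : HeightOneSpectrum (𝓞 F),
    (∃ C : WeierstrassCurve.VariableChange F, C • E = (V v).map (algebraMap (𝓞 F) F)) ∧
    ∀ W : WeierstrassCurve (𝓞 F),
      (∃ C : WeierstrassCurve.VariableChange F, C • E = W.map (algebraMap (𝓞 F) F)) →
        ∀ n : ℕ, (V v).Δ ∈ v.asIdeal ^ n → W.Δ ∈ v.asIdeal ^ n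

open Classical in
/-- The Euler product of the problem, computed from the numbers of affine points of the reductions
of the models `V v`. -/
noncomputable def LSeries (V : HeightOneSpectrum (𝓞 F) → WeierstrassCurve (𝓞 F)) (s : ℂ) : ℂ :=
  ∏' v : HeightOneSpectrum (𝓞 F),
    (1 - ((((Ideal.absNorm v.asIdeal : ℕ) : ℤ) -
          ((Nat.card {p : (𝓞 F ⧸ v.asIdeal) × (𝓞 F ⧸ v.asIdeal) //
            p.2 ^ 2 + Ideal.Quotient.mk v.asIdeal (V v).a₁ * p.1 * p.2
              + Ideal.Quotient.mk v.asIdeal (V v).a₃ * p.2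
            = p.1 ^ 3 + Ideal.Quotient.mk v.asIdeal (V v).a₂ * p.1 ^ 2
              + Ideal.Quotient.mk v.asIdeal (V v).a₄ * p.1
              + Ideal.Quotient.mk v.asIdeal (V v).a₆} : ℕ) : ℤ) : ℤ) : ℂ)
          * ((Ideal.absNorm v.asIdeal : ℕ) : ℂ) ^ (-s)
      + (if (V v).Δ ∈ v.asIdeal then (0 : ℂ) else 1)
          * ((Ideal.absNorm v.asIdeal : ℕ) : ℂ) ^ (1 - 2 * s))⁻¹

/-- `log |L(3/2 + iτ + ε)| / log(1/ε)`. -/
noncomputable def size (V : HeightOneSpectrum (𝓞 F) → WeierstrassCurve (𝓞 F)) (τ ε : ℝ) : ℝ :=
  Real.log ‖LSeries V (3 / 2 + τ * Complex.I + ε)‖ / Real.log (1 / ε)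

/-- The `L`-series has a meromorphic continuation to a neighbourhood of `3/2 + iτ`, of order `m` at
`3/2 + iτ`. -/
def HasOrder (V : HeightOneSpectrum (𝓞 F) → WeierstrassCurve (𝓞 F)) (τ : ℝ) (m : ℤ) : Prop :=
  ∃ Λ : ℂ → ℂ, MeromorphicAt Λ (3 / 2 + τ * Complex.I) ∧
    (∀ᶠ s in 𝓝 ((3 / 2 : ℂ) + τ * Complex.I), (3 / 2 : ℝ) < s.re → Λ s = LSeries V s) ∧
    meromorphicOrderAt Λ (3 / 2 + τ * Complex.I) = m

end

/-- The permutation `i ↦ σ ∘ i` of the embeddings over `K` of `F` into the algebraic closure of `K`,
for `σ` in the absolute Galois group of `K`. -/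
noncomputable def perm (K F : Type) [Field K] [Field F] [Algebra K F] :
    Gal(AlgebraicClosure K/K) →* Equiv.Perm (F →ₐ[K] AlgebraicClosure K) where
  toFun σ :=
    { toFun := fun i => (σ : AlgebraicClosure K →ₐ[K] AlgebraicClosure K).comp i
      invFun := fun i => ((σ⁻¹ : Gal(AlgebraicClosure K/K)) :
        AlgebraicClosure K →ₐ[K] AlgebraicClosure K).comp i
      left_inv := fun i => AlgHom.ext fun x => σ.symm_apply_apply (i x)
      right_inv := fun i => AlgHom.ext fun x => σ.apply_symm_apply (i x) }
  map_one' := Equiv.ext fun _ => AlgHom.ext fun _ => rfl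
  map_mul' _ _ := Equiv.ext fun _ => AlgHom.ext fun _ => rfl

/-- The proportion of the permutations without fixed point in the group of all permutations of the
embeddings of `F` given by the absolute Galois group of `K`, the Galois group of the normal closure
of `F/K`. -/
noncomputable def derangements (K F : Type) [Field K] [Field F] [Algebra K F] : ℝ :=
  (Nat.card {g : (perm K F).range // ∀ i, g.1 i ≠ i} : ℝ) / Nat.card (perm K F).range

/-- The mean value of `|∑ c_k fix_k|`, where `fix_k` is the number of the embeddings of `F k` fixed by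
`σ`, over the group of all families of permutations `(perm K (F k) σ)_k`. -/
noncomputable def meanAbs (K : Type) [Field K] {n : ℕ} (F : Fin n → Type) [∀ k, Field (F k)]
    [∀ k, Algebra K (F k)] (c : Fin n → ℝ) : ℝ :=
  (Nat.card (MonoidHom.pi fun k => perm K (F k)).range : ℝ)⁻¹ *
    ∑ᶠ g : (MonoidHom.pi fun k => perm K (F k)).range,
      |∑ k, c k * (Nat.card {i : F k →ₐ[K] AlgebraicClosure K // g.1 k i = i} : ℝ)|

open Classical in
/-- `2` for `τ = 0` and `4/π` for `τ ≠ 0`. -/
noncomputable def bound (τ : ℝ) : ℝ := if τ = 0 then 2 else 4 / Real.pi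

open Pool.Agent.W353.NF Pool.Agent.W353.AB in
/-- **Near-relations between number fields.**  Let `E` be an elliptic curve over the number field `K`
and `τ` a real number.

1. For number fields `F_1, …, F_n` containing `K` and real numbers `c_k`: the `L`-series of `E` over
`F_k` is different from zero at `3/2 + iτ + ε` for small `ε > 0`, and for every `η > 0` and small
`ε > 0` the absolute value of `∑ c_k log|L(E/F_k, 3/2 + iτ + ε)| / log(1/ε)` is at most
`bound τ · meanAbs + η`.  If the `L`-series have meromorphic continuations to neighbourhoods of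
`3/2 + iτ`, of orders `m_k`, then `|∑ c_k m_k| ≤ bound τ · meanAbs`.

2. For a number field `F` containing `K`, with proportion `δ` of derangements: for every `η > 0` and
small `ε > 0` the values of `log|L(3/2 + iτ + ε)| / log(1/ε)` over `F` and over `K` differ by at most
`2 · bound τ · δ + η`.  If both `L`-series have meromorphic continuations to a neighbourhood of
`3/2 + iτ`, of orders `m` and `m₀`, then `|m - m₀| ≤ 2 · bound τ · δ`; so `m = m₀` if `δ < 1/4`, and
for `τ ≠ 0` if `δ < π/8`.  If `[F : K] ≥ 3` and all permutations of the embeddings of `F` are given by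
the absolute Galois group of `K`, then `|m - m₀| ≤ 1`, and `m = m₀` for `τ ≠ 0`. -/
theorem result (K : Type) [Field K] [NumberField K] (E : WeierstrassCurve K) (hE : E.IsElliptic)
    (τ : ℝ) :
    (∀ (n : ℕ) (F : Fin n → Type) [∀ k, Field (F k)] [∀ k, NumberField (F k)]
      [∀ k, Algebra K (F k)] (V : ∀ k, HeightOneSpectrum (𝓞 (F k)) → WeierstrassCurve (𝓞 (F k))),
      (∀ k, MinimalModels (E.map (algebraMap K (F k))) (V k)) → ∀ c : Fin n → ℝ,
      (∀ k, ∀ᶠ ε : ℝ in 𝓝[>] 0, LSeries (V k) (3 / 2 + τ * Complex.I + ε) ≠ 0) ∧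
      (∀ η : ℝ, 0 < η → ∀ᶠ ε : ℝ in 𝓝[>] 0,
        |∑ k, c k * size (V k) τ ε| ≤ bound τ * meanAbs K F c + η) ∧
      ∀ m : Fin n → ℤ, (∀ k, HasOrder (V k) τ (m k)) →
        |∑ k, c k * m k| ≤ bound τ * meanAbs K F c) ∧
    (∀ (F : Type) [Field F] [NumberField F] [Algebra K F]
      (V₀ : HeightOneSpectrum (𝓞 K) → WeierstrassCurve (𝓞 K))
      (V : HeightOneSpectrum (𝓞 F) → WeierstrassCurve (𝓞 F)),
      MinimalModels E V₀ → MinimalModels (E.map (algebraMap K F)) V →
      (∀ η : ℝ, 0 < η → ∀ᶠ ε : ℝ in 𝓝[>] 0,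
        |size V τ ε - size V₀ τ ε| ≤ 2 * bound τ * derangements K F + η) ∧
      ∀ m₀ m : ℤ, HasOrder V₀ τ m₀ → HasOrder V τ m →
        |(m : ℝ) - m₀| ≤ 2 * bound τ * derangements K F ∧
        (derangements K F < 1 / 4 → m = m₀) ∧
        (τ ≠ 0 → derangements K F < Real.pi / 8 → m = m₀) ∧
        (3 ≤ Module.finrank K F → Function.Surjective (perm K F) →
          |m - m₀| ≤ 1 ∧ (τ ≠ 0 → m = m₀))) := by
  classical
  obtain ⟨l, p, q, hl, hp, hq, hD⟩ := Pool.Agent.H341R2.EC.exists_integral E hE
  have hpi := Real.pi_pos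
  have hbk : bound τ = 2 * kap τ := by
    unfold bound kap
    by_cases h : τ = 0
    · rw [if_pos h, if_pos h]; ring
    · rw [if_neg h, if_neg h]; ring
  have hsz : ∀ (F : Type) [Field F] [NumberField F] [Algebra K F]
      (V : HeightOneSpectrum (𝓞 F) → WeierstrassCurve (𝓞 F)),
      MinimalModels (E.map (algebraMap K F)) V →
      (∀ᶠ ε : ℝ in 𝓝[>] 0, LSeries V (3 / 2 + τ * Complex.I + ε) ≠ 0) ∧
      (syE p q).IsSize (F := F) (fun _ => 1) τ (size V τ) := by
    intro F _ _ _ V hV
    exact size_EF E hl hp hq hD V hV τ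
  have hlim : ∀ (F : Type) [Field F] [NumberField F] [Algebra K F]
      (V : HeightOneSpectrum (𝓞 F) → WeierstrassCurve (𝓞 F)),
      MinimalModels (E.map (algebraMap K F)) V → ∀ m : ℤ, HasOrder V τ m →
      Tendsto (size V τ) (𝓝[>] 0) (𝓝 (-(m : ℝ))) := by
    intro F _ _ _ V hV m hm
    obtain ⟨Λ, h1, h2, h3⟩ := hm
    exact lim_order (hsz F V hV).1 h1 h2 h3
  refine ⟨fun n F _ _ _ V hV c => ?_, fun F _ _ _ V₀ V hV₀ hV => ?_⟩
  · have hmean : meanAbs K F c = Pool.Agent.W353.L1.avR
        (MonoidHom.pi fun k => act K (F k)).ker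
        (fun q => |∑ k, c k * (fixn K (F k) q.out : ℝ)|) :=
      (avR_ker (MonoidHom.pi fun k => act K (F k)) fun g =>
        |∑ k, c k * (Nat.card {i : F k →ₐ[K] AlgebraicClosure K // g k i = i} : ℝ)|).symm
    have hopen : IsOpen ((MonoidHom.pi fun k => act K (F k)).ker :
        Set (Pool.Agent.W401.Cheb.GK K)) := by
      have e : ((MonoidHom.pi fun k => act K (F k)).ker : Set (Pool.Agent.W401.Cheb.GK K)) =
          ⋂ k, ((act K (F k)).ker : Set (Pool.Agent.W401.Cheb.GK K)) := by
        ext σ
        rw [SetLike.mem_coe, MonoidHom.mem_ker, Set.mem_iInter, funext_iff]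
        rfl
      rw [e]
      exact isOpen_iInter_of_finite fun k => ker_act_open K (F k)
    have hfin : Finite (Pool.Agent.W401.Cheb.GK K ⧸ (MonoidHom.pi fun k => act K (F k)).ker) :=
      Subgroup.quotient_finite_of_isOpen _ hopen
    have hine : ∀ η : ℝ, 0 < η → ∀ᶠ ε : ℝ in 𝓝[>] 0,
        |∑ k, c k * size (V k) τ ε| ≤ bound τ * meanAbs K F c + η := by
      intro η hη
      have h1 := ineq1 (syE p q) (syE_real p q) (MonoidHom.pi fun k => act K (F k)).ker hopen
        Finset.univ F (fun k _ u hu => congrFun ((MonoidHom.mem_ker).1 hu) k) τ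
        (fun k => size (V k) τ) (fun k _ => (hsz (F k) (V k) (hV k)).2) c hη
      rw [syE_b, ← hmean, ← mul_assoc, ← hbk] at h1
      exact h1
    exact ⟨fun k => (hsz (F k) (V k) (hV k)).1, hine, fun m hm =>
      Pool.Agent.W353.L1.lim_le (K := Finset.univ) (fun k _ => hlim (F k) (V k) (hV k) (m k) (hm k))
        c hine⟩
  · have hV₀' : MinimalModels (E.map (algebraMap K K)) V₀ := by
      have : E.map (algebraMap K K) = E := E.map_id
      rw [this]
      exact hV₀
    have hine : ∀ η : ℝ, 0 < η → ∀ᶠ ε : ℝ in 𝓝[>] 0,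
        |size V τ ε - size V₀ τ ε| ≤ 2 * bound τ * derangements K F + η := by
      intro η hη
      have h1 := ineq2 (K := K) (F := F) (syE p q) (syE_real p q) τ (size V₀ τ) (size V τ)
        (hsz K V₀ hV₀').2 (hsz F V hV).2 hη
      rw [syE_b] at h1
      have e : 2 * (kap τ * (2 * drg K F)) = 2 * bound τ * derangements K F := by
        rw [hbk]
        change _ = 2 * (2 * kap τ) * drg K F
        ring
      rw [e] at h1
      exact h1
    refine ⟨hine, fun m₀ m hm₀ hm => ?_⟩
    have t1 := hlim F V hV m hm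
    have t2 := hlim K V₀ hV₀' m₀ hm₀
    have hle : |(m : ℝ) - m₀| ≤ 2 * bound τ * derangements K F := by
      refine le_of_forall_pos_le_add fun η hη => ?_
      have t3 := (t1.sub t2).abs
      have e : |-(m : ℝ) - -(m₀ : ℝ)| = |(m : ℝ) - m₀| := by
        rw [← abs_neg]
        congr 1
        ring
      rw [e] at t3
      exact le_of_tendsto t3 (hine η hη)
    have hb2 : bound τ ≤ 2 := by
      unfold bound
      split_ifs
      · exact le_rfl
      · rw [div_le_iff₀ hpi]
        linarith [Real.pi_gt_three]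
    have hint : |(m : ℝ) - m₀| < 1 → m = m₀ := by
      intro h
      have h1 : |m - m₀| < 1 := by exact_mod_cast h
      rw [Int.abs_lt_one_iff] at h1
      omega
    have hdn : 0 ≤ derangements K F := drg_nonneg K F
    have hbb : 0 < bound τ := by
      rw [hbk]
      exact mul_pos two_pos (kap_pos τ)
    have hoff : τ ≠ 0 → derangements K F < Real.pi / 8 → m = m₀ := by
      intro hτ hd
      apply hint
      refine lt_of_le_of_lt hle ?_
      have e : bound τ = 4 / Real.pi := by
        unfold bound
        rw [if_neg hτ]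
      rw [e]
      calc 2 * (4 / Real.pi) * derangements K F < 2 * (4 / Real.pi) * (Real.pi / 8) :=
            mul_lt_mul_of_pos_left hd (by positivity)
        _ = 1 := by field_simp; norm_num
    refine ⟨hle, fun hd => hint (lt_of_le_of_lt hle ?_), hoff, fun hn hs => ?_⟩
    · calc 2 * bound τ * derangements K F ≤ 2 * 2 * derangements K F :=
            mul_le_mul_of_nonneg_right (by linarith) hdn
        _ < 1 := by linarith
    · have hd : derangements K F ≤ 3 / 8 := drg_le K F hs hn
      refine ⟨?_, fun hτ => hoff hτ ?_⟩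
      · have h1 : |(m : ℝ) - m₀| < 2 := by
          refine lt_of_le_of_lt hle ?_
          calc 2 * bound τ * derangements K F ≤ 2 * 2 * derangements K F :=
                mul_le_mul_of_nonneg_right (by linarith) hdn
            _ < 2 := by linarith
        have h2 : |m - m₀| < 2 := by exact_mod_cast h1
        omega
      · have := Real.pi_gt_three
        linarith

end Pool.Agent.Results.MP_0d9be2_nt.DerangementBound
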