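import Pool.Agent.W353.SE.Fam2

/-!
# Families of elliptic curves with uncorrelated traces

`E_1, …, E_n` are elliptic curves over the number field `K` whose normalised traces `a_v(E_i) / √q_v` are
uncorrelated of variance one over `K`.  (For `K = ℚ` this is so for any pairwise non-isogenous curves:
modularity and Rankin–Selberg theory.)  For a number field `F` containing `K` nothing is known in general
about the continuation of `L(E_i/F, s)`.  The theorem bounds the sum over `i` of the squares of the orders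
at a point `3/2 + iτ` of the edge of the half-plane of absolute convergence by a quantity that depends only
on `F`.  In particular for a given number field `F` over `ℚ` and a given point, the order is zero for all
isogeny classes of elliptic curves over `ℚ` with at most `r - 1` exceptions, `r` being the rank of the
permutation group of `F`.
-/

set_option autoImplicit false

namespace Pool.Agent.Results.MP_0d9be2_nt.UncorrelatedCurves

open NumberField IsDedekindDomain Filter Topology
open Pool.Agent.W353.ST (HasMean)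

section
variable {F : Type} [Field F] [NumberField F]

/-- `V v` is, for every finite place `v`, an integral model of `E` with discriminant minimal at
`v`. -/
def MinimalModels (E : WeierstrassCurve F)
    (V : HeightOneSpectrum (𝓞 F) → WeierstrassCurve (𝓞 F)) : Prop :=
  ∀ v : HeightOneSpectrum (𝓞 F),
    (∃ C : WeierstrassCurve.VariableChange F, C • E = (V v).map (algebraMap (𝓞 F) F)) ∧
    ∀ W : WeierstrassCurve (𝓞 F),
      (∃ C : WeierstrassCurve.VariableChange F, C • E = W.map (algebraMap (𝓞 F) F)) →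
        ∀ n : ℕ, (V v).Δ ∈ v.asIdeal ^ n → W.Δ ∈ v.asIdeal ^ n

/-- `a_v`: the number of elements of the residue field minus the number of affine points of the
reduction of the model `V v`. -/
noncomputable def trace (V : HeightOneSpectrum (𝓞 F) → WeierstrassCurve (𝓞 F))
    (v : HeightOneSpectrum (𝓞 F)) : ℤ :=
  ((Ideal.absNorm v.asIdeal : ℕ) : ℤ) -
    ((Nat.card {p : (𝓞 F ⧸ v.asIdeal) × (𝓞 F ⧸ v.asIdeal) //
      p.2 ^ 2 + Ideal.Quotient.mk v.asIdeal (V v).a₁ * p.1 * p.2
        + Ideal.Quotient.mk v.asIdeal (V v).a₃ * p.2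
      = p.1 ^ 3 + Ideal.Quotient.mk v.asIdeal (V v).a₂ * p.1 ^ 2
        + Ideal.Quotient.mk v.asIdeal (V v).a₄ * p.1
        + Ideal.Quotient.mk v.asIdeal (V v).a₆} : ℕ) : ℤ)

open Classical in
/-- The Euler product of the problem. -/
noncomputable def LSeries (V : HeightOneSpectrum (𝓞 F) → WeierstrassCurve (𝓞 F)) (s : ℂ) : ℂ :=
  ∏' v : HeightOneSpectrum (𝓞 F),
    (1 - (trace V v : ℂ) * ((Ideal.absNorm v.asIdeal : ℕ) : ℂ) ^ (-s)
      + (if (V v).Δ ∈ v.asIdeal then (0 : ℂ) else 1)
          * ((Ideal.absNorm v.asIdeal : ℕ) : ℂ) ^ (1 - 2 * s))⁻¹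

/-- `log |L(3/2 + iτ + ε)| / log(1/ε)`. -/
noncomputable def size (V : HeightOneSpectrum (𝓞 F) → WeierstrassCurve (𝓞 F)) (τ ε : ℝ) : ℝ :=
  Real.log ‖LSeries V (3 / 2 + τ * Complex.I + ε)‖ / Real.log (1 / ε)

/-- The `L`-series has a meromorphic continuation to a neighbourhood of `3/2 + iτ`, of order `m` at
`3/2 + iτ`. -/
def HasOrder (V : HeightOneSpectrum (𝓞 F) → WeierstrassCurve (𝓞 F)) (τ : ℝ) (m : ℤ) : Prop :=
  ∃ Λ : ℂ → ℂ, MeromorphicAt Λ (3 / 2 + τ * Complex.I) ∧
    (∀ᶠ s in 𝓝 ((3 / 2 : ℂ) + τ * Complex.I), (3 / 2 : ℝ) < s.re → Λ s = LSeries V s) ∧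
    meromorphicOrderAt Λ (3 / 2 + τ * Complex.I) = m

/-- The normalised traces of the curves with the models `V i` are uncorrelated of variance one: the
mean value of `a_v(i) a_v(j) / q_v` over the primes `v` (analytic density) is `1` for `i = j` and `0` for
`i ≠ j`. -/
def Uncorrelated {ι : Type} (V : ι → HeightOneSpectrum (𝓞 F) → WeierstrassCurve (𝓞 F)) : Prop :=
  (∀ i, HasMean (fun v => (((trace (V i) v : ℝ) * (trace (V i) v : ℝ) /
    (Ideal.absNorm v.asIdeal : ℝ) : ℝ) : ℂ)) 1) ∧
  ∀ i j, i ≠ j → HasMean (fun v => (((trace (V i) v : ℝ) * (trace (V j) v : ℝ) /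
    (Ideal.absNorm v.asIdeal : ℝ) : ℝ) : ℂ)) 0

end

/-- The permutation `i ↦ σ ∘ i` of the embeddings over `K` of `F` into the algebraic closure of `K`,
for `σ` in the absolute Galois group of `K`. -/
noncomputable def perm (K F : Type) [Field K] [Field F] [Algebra K F] :
    Gal(AlgebraicClosure K/K) →* Equiv.Perm (F →ₐ[K] AlgebraicClosure K) where
  toFun σ :=
    { toFun := fun i => (σ : AlgebraicClosure K →ₐ[K] AlgebraicClosure K).comp i
      invFun := fun i => ((σ⁻¹ : Gal(AlgebraicClosure K/K)) :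
        AlgebraicClosure K →ₐ[K] AlgebraicClosure K).comp i
      left_inv := fun i => AlgHom.ext fun x => σ.symm_apply_apply (i x)
      right_inv := fun i => AlgHom.ext fun x => σ.apply_symm_apply (i x) }
  map_one' := Equiv.ext fun _ => AlgHom.ext fun _ => rfl
  map_mul' _ _ := Equiv.ext fun _ => AlgHom.ext fun _ => rfl

/-- The number of the orbits of the absolute Galois group of `K` on the pairs of embeddings over `K`
of `F` into the algebraic closure of `K` (the rank of the permutation group). -/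
noncomputable def rank (K F : Type) [Field K] [Field F] [Algebra K F] : ℕ :=
  Nat.card (Quot fun p q : (F →ₐ[K] AlgebraicClosure K) × (F →ₐ[K] AlgebraicClosure K) =>
    ∃ σ : Gal(AlgebraicClosure K/K), perm K F σ p.1 = q.1 ∧ perm K F σ p.2 = q.2)

/-- The mean value of `(∑ c_k fix_k)²`, where `fix_k` is the number of the embeddings of `F k` fixed by
`σ`, over the group of all families of permutations `(perm K (F k) σ)_k`. -/
noncomputable def meanSq (K : Type) [Field K] {n : ℕ} (F : Fin n → Type) [∀ k, Field (F k)]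
    [∀ k, Algebra K (F k)] (c : Fin n → ℝ) : ℝ :=
  (Nat.card (MonoidHom.pi fun k => perm K (F k)).range : ℝ)⁻¹ *
    ∑ᶠ g : (MonoidHom.pi fun k => perm K (F k)).range,
      (∑ k, c k * (Nat.card {i : F k →ₐ[K] AlgebraicClosure K // g.1 k i = i} : ℝ)) ^ 2

open Classical in
/-- `1` for `τ = 0` and `1/2` for `τ ≠ 0`. -/
noncomputable def weight (τ : ℝ) : ℝ := if τ = 0 then 1 else 1 / 2

open Pool.Agent.W353.NF Pool.Agent.W353.AB Pool.Agent.W540.BE Pool.Agent.W353.SE in
/-- **Families of elliptic curves with uncorrelated traces.**  Let `E_i` (`i` in a finite set) be elliptic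
curves over the number field `K` whose normalised traces are uncorrelated of variance one, and `τ` a real
number; put `w = 1` if `τ = 0` and `w = 1/2` if `τ ≠ 0`.

1. For number fields `F_1, …, F_n` containing `K` and real numbers `c_k` let `M` be the mean value of
`(∑ c_k fix_k)²`.  The `L`-series of `E_i` over `F_k` is different from zero at `3/2 + iτ + ε` for small
`ε > 0`, and with `x_{i,k}(ε) = log|L(E_i/F_k, 3/2 + iτ + ε)| / log(1/ε)` one has for every `η > 0`
`∑_i (∑_k c_k x_{i,k}(ε))² ≤ w M + η` for all small `ε > 0`.  If the `L`-series have meromorphic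
continuations to neighbourhoods of `3/2 + iτ`, of orders `m_{i,k}`, then
`∑_i (∑_k c_k m_{i,k})² ≤ w M`.

2. Let `F` be a number field containing `K` and `r` the rank of the group of the permutations of the
embeddings of `F` given by the absolute Galois group of `K`.  For every `η > 0` and small `ε > 0` the
squares of the differences of `log|L(3/2 + iτ + ε)| / log(1/ε)` over `F` and over `K`, summed over the
curves, are at most `w (r - 1) + η`.  If all the `L`-series of the `E_i` over `F` and over `K` have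
meromorphic continuations to neighbourhoods of `3/2 + iτ`, of orders `m_i` and `μ_i`, then
`∑_i (m_i - μ_i)² ≤ w (r - 1)`; so `m_i = μ_i` for all `i` with at most `w (r - 1)` exceptions. -/
theorem result (K : Type) [Field K] [NumberField K] (ι : Type) [Fintype ι]
    (E : ι → WeierstrassCurve K) (hE : ∀ i, (E i).IsElliptic)
    (V₀ : ι → HeightOneSpectrum (𝓞 K) → WeierstrassCurve (𝓞 K))
    (hV₀ : ∀ i, MinimalModels (E i) (V₀ i)) (hunc : Uncorrelated V₀) (τ : ℝ) :
    (∀ (n : ℕ) (F : Fin n → Type) [∀ k, Field (F k)] [∀ k, NumberField (F k)]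
      [∀ k, Algebra K (F k)]
      (V : ι → ∀ k, HeightOneSpectrum (𝓞 (F k)) → WeierstrassCurve (𝓞 (F k))),
      (∀ i k, MinimalModels ((E i).map (algebraMap K (F k))) (V i k)) → ∀ c : Fin n → ℝ,
      (∀ i k, ∀ᶠ ε : ℝ in 𝓝[>] 0, LSeries (V i k) (3 / 2 + τ * Complex.I + ε) ≠ 0) ∧
      (∀ η : ℝ, 0 < η → ∀ᶠ ε : ℝ in 𝓝[>] 0,
        ∑ i, (∑ k, c k * size (V i k) τ ε) ^ 2 ≤ weight τ * meanSq K F c + η) ∧
      ∀ m : ι → Fin n → ℤ, (∀ i k, HasOrder (V i k) τ (m i k)) →
        ∑ i, (∑ k, c k * m i k) ^ 2 ≤ weight τ * meanSq K F c) ∧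
    (∀ (F : Type) [Field F] [NumberField F] [Algebra K F]
      (V : ι → HeightOneSpectrum (𝓞 F) → WeierstrassCurve (𝓞 F)),
      (∀ i, MinimalModels ((E i).map (algebraMap K F)) (V i)) →
      (∀ η : ℝ, 0 < η → ∀ᶠ ε : ℝ in 𝓝[>] 0,
        ∑ i, (size (V i) τ ε - size (V₀ i) τ ε) ^ 2 ≤ weight τ * (rank K F - 1) + η) ∧
      ∀ μ m : ι → ℤ, (∀ i, HasOrder (V₀ i) τ (μ i)) → (∀ i, HasOrder (V i) τ (m i)) →
        ∑ i, ((m i : ℝ) - μ i) ^ 2 ≤ weight τ * (rank K F - 1) ∧
        (Nat.card {i // m i ≠ μ i} : ℝ) ≤ weight τ * (rank K F - 1)) := by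
  classical
  choose l p q hl hp hq hD using fun i => Pool.Agent.H341R2.EC.exists_integral (E i) (hE i)
  choose σ hσ using exists_isFrob (F := K)
  have hw : weight τ = wt τ := by
    unfold weight wt
    rfl
  have horth := fam_orth hl hp hq hD hV₀ hunc.1 hunc.2
  have hsz : ∀ (i : ι) (F : Type) [Field F] [NumberField F] [Algebra K F]
      (V : HeightOneSpectrum (𝓞 F) → WeierstrassCurve (𝓞 F)),
      MinimalModels ((E i).map (algebraMap K F)) V →
      (∀ᶠ ε : ℝ in 𝓝[>] 0, LSeries V (3 / 2 + τ * Complex.I + ε) ≠ 0) ∧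
      (syE (p i) (q i)).IsSize (F := F) (fun _ => 1) τ (size V τ) := by
    intro i F _ _ _ V hV
    exact size_EF (E i) (hl i) (hp i) (hq i) (hD i) V hV τ
  have hlim : ∀ (i : ι) (F : Type) [Field F] [NumberField F] [Algebra K F]
      (V : HeightOneSpectrum (𝓞 F) → WeierstrassCurve (𝓞 F)),
      MinimalModels ((E i).map (algebraMap K F)) V → ∀ m : ℤ, HasOrder V τ m →
      Tendsto (size V τ) (𝓝[>] 0) (𝓝 (-(m : ℝ))) := by
    intro i F _ _ _ V hV m hm
    obtain ⟨Λ, h1, h2, h3⟩ := hm
    exact lim_order (hsz i F V hV).1 h1 h2 h3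
  have hfin : ∀ (i : ι) (F : Type) [Field F] [NumberField F] [Algebra K F]
      (V : HeightOneSpectrum (𝓞 F) → WeierstrassCurve (𝓞 F)),
      MinimalModels ((E i).map (algebraMap K F)) V →
      SzH (TT (syE (p i) (q i))) (fun v => (fixn K F (σ v) : ℝ) * cz τ v) (size V τ) := by
    intro i F _ _ _ V hV
    exact size_fix (syE (p i) (q i)) (syE_real (p i) (q i)) σ hσ (hsz i F V hV).2
  have hbd : ∀ (F : Type) [Field F] [NumberField F] [Algebra K F]
      (v : HeightOneSpectrum (𝓞 K)),
      |(fixn K F (σ v) : ℝ) * cz τ v| ≤ Module.finrank ℚ F := by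
    intro F _ _ _ v
    rw [abs_mul, abs_of_nonneg (Nat.cast_nonneg _)]
    calc (fixn K F (σ v) : ℝ) * |cz τ v| ≤ Module.finrank ℚ F * 1 :=
          mul_le_mul (fixn_le _) (abs_cz _ _) (abs_nonneg _) (by positivity)
      _ = Module.finrank ℚ F := mul_one _
  have hV₀' : ∀ i, MinimalModels ((E i).map (algebraMap K K)) (V₀ i) := by
    intro i
    have : (E i).map (algebraMap K K) = E i := (E i).map_id
    rw [this]
    exact hV₀ i
  -- limits
  have hle : ∀ {X : ι → ℝ → ℝ} {x : ι → ℝ} {B : ℝ}, (∀ i, Tendsto (X i) (𝓝[>] 0) (𝓝 (x i))) →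
      (∀ η : ℝ, 0 < η → ∀ᶠ ε : ℝ in 𝓝[>] 0, ∑ i, X i ε ^ 2 ≤ B + η) → ∑ i, x i ^ 2 ≤ B := by
    intro X x B hX hB
    refine le_of_forall_pos_le_add fun η hη => ?_
    exact le_of_tendsto (tendsto_finsetSum _ fun i _ => (hX i).pow 2) (hB η hη)
  refine ⟨fun n F _ _ _ V hV c => ?_, fun F _ _ _ V hV => ?_⟩
  · set Φ := MonoidHom.pi fun k => act K (F k) with hΦ
    have hmean : meanSq K F c = Pool.Agent.W353.L1.avR Φ.ker
        (fun q => (∑ k, c k * (fixn K (F k) q.out : ℝ)) ^ 2) :=
      (avR_ker Φ fun g =>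
        (∑ k, c k * (Nat.card {i : F k →ₐ[K] AlgebraicClosure K // g k i = i} : ℝ)) ^ 2).symm
    have hopen : IsOpen (Φ.ker : Set (Pool.Agent.W401.Cheb.GK K)) := by
      have e : (Φ.ker : Set (Pool.Agent.W401.Cheb.GK K)) =
          ⋂ k, ((act K (F k)).ker : Set (Pool.Agent.W401.Cheb.GK K)) := by
        ext σ
        rw [SetLike.mem_coe, MonoidHom.mem_ker, Set.mem_iInter, funext_iff]
        rfl
      rw [e]
      exact isOpen_iInter_of_finite fun k => ker_act_open K (F k)
    have hS : ∀ i, SzH (TT (syE (p i) (q i)))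
        (fun v => (∑ k, c k * (fixn K (F k) (σ v) : ℝ)) * cz τ v)
        (fun ε => ∑ k, c k * size (V i k) τ ε) := by
      intro i
      have h1 := SzH.sum Finset.univ (fun k _ => hfin i (F k) (V i k) (hV i k))
        (abs_TT (syE (p i) (q i))) (B := fun k => (Module.finrank ℚ (F k) : ℝ))
        (fun k _ v => hbd (F k) v) c
      exact h1.congr (fun v => by
        rw [Finset.sum_mul]
        exact Finset.sum_congr rfl fun k _ => by ring) fun _ => rfl
    have h1 := fam_main horth Φ.ker hopen (fun g => ∑ k, c k * (fixn K (F k) g : ℝ))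
      (fun g u hu => Finset.sum_congr rfl fun k _ => by
        rw [fixn_mul_ker K (F k) g u (congrFun ((MonoidHom.mem_ker).1 hu) k)])
      (fun g ρ => Finset.sum_congr rfl fun k _ => by rw [fixn_conj])
      (fun g => Finset.sum_congr rfl fun k _ => by rw [fixn_inv]) σ hσ τ
      (fun i ε => ∑ k, c k * size (V i k) τ ε) hS
    rw [← hmean, ← hw] at h1
    refine ⟨fun i k => (hsz i (F k) (V i k) (hV i k)).1, h1, fun m hm => ?_⟩
    have h2 : ∀ i, Tendsto (fun ε : ℝ => ∑ k, c k * size (V i k) τ ε) (𝓝[>] 0)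
        (𝓝 (∑ k, c k * (-(m i k : ℝ)))) := fun i =>
      tendsto_finsetSum _ fun k _ =>
        (hlim i (F k) (V i k) (hV i k) (m i k) (hm i k)).const_mul (c k)
    have h3 := hle h2 h1
    refine le_trans (le_of_eq (Finset.sum_congr rfl fun i _ => ?_)) h3
    have h6 : ∑ k, c k * (-(m i k : ℝ)) = -∑ k, c k * (m i k : ℝ) := by
      rw [← Finset.sum_neg_distrib]
      exact Finset.sum_congr rfl fun k _ => by ring
    rw [h6, neg_sq]
  · have hopen := ker_act_open K F
    have hb2 : ∀ v, |(-1 : ℝ) * ((fixn K K (σ v) : ℝ) * cz τ v)| ≤ Module.finrank ℚ K := by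
      intro v
      rw [abs_mul, abs_neg, abs_one, one_mul]
      exact hbd K v
    have hS : ∀ i, SzH (TT (syE (p i) (q i))) (fun v => ((fixn K F (σ v) : ℝ) - 1) * cz τ v)
        (fun ε => size (V i) τ ε - size (V₀ i) τ ε) := by
      intro i
      exact ((hfin i F (V i) (hV i)).add ((hfin i K (V₀ i) (hV₀' i)).const_mul (-1))
        (abs_TT (syE (p i) (q i))) (hbd F) hb2).congr
        (fun v => by rw [fixn_self]; push_cast; ring) (fun ε => by ring)
    have h1 := fam_main horth (act K F).ker hopen (fun g => (fixn K F g : ℝ) - 1)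
      (fun g u hu => by rw [fixn_mul_ker K F g u hu]) (fun g ρ => by rw [fixn_conj])
      (fun g => by rw [fixn_inv]) σ hσ τ (fun i ε => size (V i) τ ε - size (V₀ i) τ ε) hS
    rw [avR_sub, ← hw] at h1
    refine ⟨h1, fun μ m hμ hm => ?_⟩
    have h2 : ∀ i, Tendsto (fun ε : ℝ => size (V i) τ ε - size (V₀ i) τ ε) (𝓝[>] 0)
        (𝓝 (-(m i : ℝ) - -(μ i : ℝ))) := fun i =>
      (hlim i F (V i) (hV i) (m i) (hm i)).sub (hlim i K (V₀ i) (hV₀' i) (μ i) (hμ i))
    have h3 := hle h2 h1
    have h4 : ∑ i, ((m i : ℝ) - μ i) ^ 2 ≤ weight τ * (rank K F - 1) := by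
      refine le_trans (le_of_eq (Finset.sum_congr rfl fun i _ => ?_)) h3
      ring
    refine ⟨h4, le_trans ?_ h4⟩
    rw [Nat.card_eq_fintype_card, Fintype.card_subtype, Finset.card_eq_sum_ones, Nat.cast_sum]
    refine le_trans ?_ (Finset.sum_le_sum_of_subset_of_nonneg
      (Finset.subset_univ (Finset.univ.filter fun i => m i ≠ μ i)) fun i _ _ => sq_nonneg _)
    refine Finset.sum_le_sum fun i hi => ?_
    rw [Finset.mem_filter] at hi
    have h5 : (1 : ℤ) ≤ (m i - μ i) ^ 2 := by
      have : m i - μ i ≠ 0 := sub_ne_zero.2 hi.2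
      have h6 : 0 < (m i - μ i) ^ 2 := by positivity
      omega
    have h7 : (1 : ℝ) ≤ ((m i : ℝ) - μ i) ^ 2 := by exact_mod_cast h5
    simpa using h7

end Pool.Agent.Results.MP_0d9be2_nt.UncorrelatedCurves
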